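import Pool.Agent.H89.CM4.Targets2

/-!
# The expansion of the twisted sums (MP_52e316_nt, board cm4, row EXP)
-/

set_option autoImplicit false
set_option linter.unusedSectionVars false
set_option linter.unusedVariables false

open MeasureTheory Set Filter NumberField NumberField.InfinitePlace Pool.Agent.H65.CM4
  Pool.Agent.H89.CM4
open scoped Real

namespace Pool.Agent.H31.CM4

section

variable {k : Type} [Field k] [NumberField k]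

/-! ### Ideals -/

open Classical in
/-- the quotient of two ideals -/
noncomputable def expQuo (n m : Ideal (𝓞 k)) : Ideal (𝓞 k) :=
  if h : m ∣ n then Classical.choose h else ⊥

theorem exp_quo_mul {n m : Ideal (𝓞 k)} (h : m ∣ n) : m * expQuo n m = n := by
  unfold expQuo
  rw [dif_pos h]
  exact (Classical.choose_spec h).symm

theorem exp_quo_cancel {m g : Ideal (𝓞 k)} (hm : m ≠ ⊥) : expQuo (m * g) m = g := by
  have h : m * expQuo (m * g) m = m * g := exp_quo_mul (Dvd.intro _ rfl)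
  exact mul_left_cancel₀ hm h

theorem exp_cop {m g : Ideal (𝓞 k)} (h : Squarefree (m * g)) : m ⊔ g = ⊤ := by
  have h1 := (squarefree_mul_iff.1 h).1
  have h2 : IsUnit (m ⊔ g) := h1 (Ideal.dvd_iff_le.2 le_sup_left) (Ideal.dvd_iff_le.2 le_sup_right)
  exact Ideal.isUnit_iff.1 h2

theorem exp_nm_le {m n : Ideal (𝓞 k)} (hn : n ≠ ⊥) (h : m ∣ n) : nm m ≤ nm n := by
  unfold nm
  have h1 : Ideal.absNorm m ∣ Ideal.absNorm n :=
    Ideal.absNorm_dvd_absNorm_of_le (Ideal.dvd_iff_le.1 h)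
  have h2 : Ideal.absNorm n ≠ 0 := fun h3 => hn (Ideal.absNorm_eq_zero_iff.1 h3)
  exact_mod_cast Nat.le_of_dvd (Nat.pos_of_ne_zero h2) h1

theorem exp_sq_dvd
    (hS : ∀ (b : ℕ) (A : ℝ) (I : Ideal (𝓞 k)),
      I ∈ Sq b A ↔ I ≠ ⊥ ∧ Squarefree I ∧ I ⊔ Ideal.span {(b : 𝓞 k)} = ⊤ ∧ nm I ≤ A)
    {b : ℕ} {A : ℝ} {m n : Ideal (𝓞 k)} (hn : n ∈ Sq b A) (h : m ∣ n) : m ∈ Sq b A := by
  rw [hS] at hn ⊢
  obtain ⟨h1, h2, h3, h4⟩ := hn
  refine ⟨?_, h2.squarefree_of_dvd h, ?_, (exp_nm_le h1 h).trans h4⟩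
  · rintro rfl
    exact h1 (zero_dvd_iff.1 h)
  · rw [eq_top_iff, ← h3]
    exact sup_le_sup_right (Ideal.dvd_iff_le.1 h) _

open Classical in
theorem exp_mem_dv (hI : ∀ (A : ℝ) (I : Ideal (𝓞 k)), I ∈ Id k A ↔ I ≠ ⊥ ∧ nm I ≤ A)
    {m n : Ideal (𝓞 k)} (hn : n ≠ ⊥) : m ∈ dv n ↔ m ∣ n := by
  unfold dv
  rw [Finset.mem_filter, hI]
  refine ⟨fun h => h.2, fun h => ⟨⟨?_, exp_nm_le hn h⟩, h⟩⟩
  rintro rfl
  exact hn (zero_dvd_iff.1 h)

/-! ### Pairs of factors -/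

open Classical in
/-- change of variables -/
theorem exp_sum_factor (hI : ∀ (A : ℝ) (I : Ideal (𝓞 k)), I ∈ Id k A ↔ I ≠ ⊥ ∧ nm I ≤ A)
    (hS : ∀ (b : ℕ) (A : ℝ) (I : Ideal (𝓞 k)),
      I ∈ Sq b A ↔ I ≠ ⊥ ∧ Squarefree I ∧ I ⊔ Ideal.span {(b : 𝓞 k)} = ⊤ ∧ nm I ≤ A)
    (b : ℕ) (A : ℝ) (F : Ideal (𝓞 k) → Ideal (𝓞 k) → ℂ) :
    ∑ n ∈ Sq b A, ∑ m ∈ dv n, F m (expQuo n m) =
      ∑ m ∈ Sq b A, ∑ g ∈ (Sq b A).filter (fun g => m * g ∈ Sq b A), F m g := by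
  rw [Finset.sum_sigma', Finset.sum_sigma']
  refine Finset.sum_nbij' (fun z => ⟨z.2, expQuo z.1 z.2⟩) (fun z => ⟨z.1 * z.2, z.1⟩)
    ?_ ?_ ?_ ?_ ?_
  · rintro ⟨n, m⟩ h
    rw [Finset.mem_sigma] at h
    have h1 : n ∈ Sq b A := h.1
    have h0 : n ≠ ⊥ := ((hS b A n).1 h1).1
    have h2 : m ∣ n := (exp_mem_dv hI h0).1 h.2
    have h3 : m * expQuo n m = n := exp_quo_mul h2
    rw [Finset.mem_sigma]
    refine ⟨exp_sq_dvd hS h1 h2, ?_⟩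
    show expQuo n m ∈ (Sq b A).filter (fun g => m * g ∈ Sq b A)
    rw [Finset.mem_filter, h3]
    exact ⟨exp_sq_dvd hS h1 ⟨m, by rw [mul_comm]; exact h3.symm⟩, h1⟩
  · rintro ⟨m, g⟩ h
    rw [Finset.mem_sigma, Finset.mem_filter] at h
    obtain ⟨-, -, h3⟩ := h
    rw [Finset.mem_sigma]
    refine ⟨h3, ?_⟩
    show m ∈ dv (m * g)
    rw [exp_mem_dv hI ((hS b A _).1 h3).1]
    exact Dvd.intro _ rfl
  · rintro ⟨n, m⟩ h
    rw [Finset.mem_sigma] at h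
    have h0 : n ≠ ⊥ := ((hS b A n).1 h.1).1
    have h3 : m * expQuo n m = n := exp_quo_mul ((exp_mem_dv hI h0).1 h.2)
    show (⟨m * expQuo n m, m⟩ : (_ : Ideal (𝓞 k)) × Ideal (𝓞 k)) = ⟨n, m⟩
    rw [h3]
  · rintro ⟨m, g⟩ h
    rw [Finset.mem_sigma] at h
    have h0 : m ≠ ⊥ := ((hS b A m).1 h.1).1
    show (⟨m, expQuo (m * g) m⟩ : (_ : Ideal (𝓞 k)) × Ideal (𝓞 k)) = ⟨m, g⟩
    rw [exp_quo_cancel h0]
  · rintro ⟨n, m⟩ _
    rfl

end

variable (k : Type) [Field k] [NumberField k] [IsTotallyReal k]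

/-! ### Lattices -/

/-- the lattice of the ideal `m` above a lattice of the ideal `m g` -/
theorem exp_above (hCRT : T_CRT k) (hRFM : T_RFM k) {m g : Ideal (𝓞 k)} (hm : m ≠ ⊥)
    (hg : g ≠ ⊥) (hc : m ⊔ g = ⊤) {L : La k} (hL : L ∈ Ls (m * g)) :
    ∃ L' ∈ Ls m, L ≤ L' ∧ (∀ L'' ∈ Ls m, L ≤ L'' → L'' = L') ∧ ∀ Q, Rn m L Q = Rn m L' Q := by
  obtain ⟨L₁, h1, L₂, h2, rfl⟩ := (hCRT m g hm hg hc).2.1 L hL
  refine ⟨L₁, h1, inf_le_left, fun L' h3 h4 => ?_, fun Q => ?_⟩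
  · exact ((hCRT m g hm hg hc).2.2 L₁ h1 L₂ h2 L' h3 L₂ h2 (le_inf h4 inf_le_right)).1.symm
  · unfold Rn
    refine Finset.prod_congr rfl fun P hP => ?_
    unfold pf at hP
    rw [Multiset.mem_toFinset] at hP
    have h3 := (hRFM m g L₁ L₂ Q hm hg hc h1 h2).1 P
      (Ideal.isPrime_of_prime (UniqueFactorizationMonoid.prime_of_normalized_factor P hP))
      (UniqueFactorizationMonoid.dvd_of_mem_normalizedFactors hP)
    by_cases h4 : Dv P L₁ Q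
    · rw [if_pos h4, if_pos (h3.2 h4)]
    · rw [if_neg h4, if_neg fun h5 => h4 (h3.1 h5)]

open Classical in
/-- grouping -/
theorem exp_group (hCRT : T_CRT k) (hRFM : T_RFM k) {m g : Ideal (𝓞 k)} (hm : m ≠ ⊥)
    (hg : g ≠ ⊥) (hc : m ⊔ g = ⊤) (Q : QF k) (E : La k → ℂ) :
    ∑ L ∈ Ls (m * g), (Rn m L Q : ℂ) * E L =
      ∑ L' ∈ Ls m, (Rn m L' Q : ℂ) * ∑ L ∈ (Ls (m * g)).filter (fun L => L ≤ L'), E L := by
  have h1 : ∀ L' ∈ Ls m, (Rn m L' Q : ℂ) * ∑ L ∈ (Ls (m * g)).filter (fun L => L ≤ L'), E L =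
      ∑ L ∈ Ls (m * g), if L ≤ L' then (Rn m L' Q : ℂ) * E L else 0 := by
    intro L' _
    rw [Finset.sum_filter, Finset.mul_sum]
    refine Finset.sum_congr rfl fun L _ => ?_
    split_ifs
    · rfl
    · rw [mul_zero]
  rw [Finset.sum_congr rfl h1, Finset.sum_comm]
  refine Finset.sum_congr rfl fun L hL => ?_
  obtain ⟨L', h2, h3, h4, h5⟩ := exp_above k hCRT hRFM hm hg hc hL
  rw [Finset.sum_eq_single L']
  · rw [if_pos h3, h5]
  · intro L'' h6 h7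
    exact if_neg fun h8 => h7 (h4 L'' h6 h8)
  · intro h6
    exact absurd h2 h6

open Classical in
theorem pf_EXP (hHEC : T_HEC k) (hIND : T_IND k) (hRFM : T_RFM k) (hCRT : T_CRT k)
    (hFLS : T_FLS k) (hIDC : T_IDC k) (hQZR : T_QZR k) : T_EXP k := by
  intro b M s α A Q hb hM hs0 hs2 _ hQ
  obtain ⟨hI, hS, -⟩ := hIDC
  have hy : ∀ v, 0 < zy Q v := (hQZR.2.2.2 Q hQ).1
  -- the first form
  have e1 : ∀ n ∈ Sq b A, α n * ∑ L ∈ (Ls n).filter (fun L => Dv n L Q),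
      Ez s (M ⊓ L) (zx Q) (zy Q) = ∑ m ∈ dv n, α (m * expQuo n m) /
        ((nm (m * expQuo n m) : ℝ) : ℂ) * ∑ L' ∈ Ls m, (Rn m L' Q : ℂ) *
          ∑ J ∈ dv (expQuo n m), ((nm J : ℝ) : ℂ) ^ (1 - 2 * s) *
            ((nm (expQuo n m) : ℝ) : ℂ) ^ s * Ez s (M ⊓ L' ⊓ kO J) (zx Q) (zy Q) := by
    intro n hn
    have hn' := (hS b A n).1 hn
    obtain ⟨hn0, hnq, hnc, hnA⟩ := hn'
    have h1 : ∑ L ∈ (Ls n).filter (fun L => Dv n L Q), Ez s (M ⊓ L) (zx Q) (zy Q) =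
        (1 / ((nm n : ℝ) : ℂ)) * ∑ m ∈ dv n, ∑ L ∈ Ls n, (Rn m L Q : ℂ) *
          Ez s (M ⊓ L) (zx Q) (zy Q) := by
      rw [Finset.sum_comm, Finset.mul_sum, Finset.sum_filter]
      refine Finset.sum_congr rfl fun L hL => ?_
      rw [← Finset.sum_mul, ← mul_assoc]
      have h2 := hIND n L Q hn0 hnq hL
      have h3 : (if Dv n L Q then (1 : ℂ) else 0) =
          (1 / ((nm n : ℝ) : ℂ)) * ∑ m ∈ dv n, (Rn m L Q : ℂ) := by
        have h4 := congrArg (fun r : ℝ => (r : ℂ)) h2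
        push_cast at h4
        rw [← h4]
        split_ifs <;> simp
      rw [← h3]
      split_ifs <;> simp
    rw [h1, ← mul_assoc, Finset.mul_sum]
    refine Finset.sum_congr rfl fun m hm => ?_
    have h2 : m ∣ n := (exp_mem_dv hI hn0).1 hm
    have h3 : m * expQuo n m = n := exp_quo_mul h2
    have hm0 : m ≠ ⊥ := by
      rintro rfl
      exact hn0 (zero_dvd_iff.1 h2)
    have hg0 : expQuo n m ≠ ⊥ := by
      intro h4
      rw [h4] at h3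
      exact hn0 (by rw [← h3]; exact mul_zero m)
    have hsq : Squarefree (m * expQuo n m) := by rw [h3]; exact hnq
    have hc : m ⊔ expQuo n m = ⊤ := exp_cop hsq
    have h4 := exp_group k hCRT hRFM hm0 hg0 hc Q (fun L => Ez s (M ⊓ L) (zx Q) (zy Q))
    rw [h3] at h4 ⊢
    rw [h4]
    congr 1
    · ring
    · refine Finset.sum_congr rfl fun L' hL' => ?_
      have hSf : Sf b (m * expQuo n m) := by
        rw [h3]
        exact ⟨hn0, hnq, hnc⟩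
      have h5 := hHEC b M m (expQuo n m) L' (zx Q) (zy Q) s hb hM hSf hL' hy hs0 hs2
      rw [h3] at h5
      rw [h5]
  unfold Bf
  rw [Finset.sum_congr rfl e1]
  have e2 := exp_sum_factor hI hS b A (fun m g => α (m * g) / ((nm (m * g) : ℝ) : ℂ) *
    ∑ L' ∈ Ls m, (Rn m L' Q : ℂ) * ∑ J ∈ dv g, ((nm J : ℝ) : ℂ) ^ (1 - 2 * s) *
      ((nm g : ℝ) : ℂ) ^ s * Ez s (M ⊓ L' ⊓ kO J) (zx Q) (zy Q))
  refine e2.trans ?_
  refine Finset.sum_congr rfl fun m hm => ?_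
  have e3 : ∀ L ∈ Ls m, cf s α b A M m L (fun v => (zx Q v : ℂ)) (fun v => (zy Q v : ℂ)) *
      (Rn m L Q : ℂ) = ∑ g ∈ (Sq b A).filter (fun g => m * g ∈ Sq b A),
        α (m * g) / ((nm (m * g) : ℝ) : ℂ) * ((Rn m L Q : ℂ) *
          ∑ J ∈ dv g, ((nm J : ℝ) : ℂ) ^ (1 - 2 * s) * ((nm g : ℝ) : ℂ) ^ s *
            Ez s (M ⊓ L ⊓ kO J) (zx Q) (zy Q)) := by
    intro L _
    unfold cf Ez
    rw [Finset.sum_mul]
    refine Finset.sum_congr rfl fun g _ => ?_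
    ring
  rw [Finset.sum_congr rfl e3, Finset.sum_comm]
  refine Finset.sum_congr rfl fun g _ => ?_
  rw [Finset.mul_sum]

end Pool.Agent.H31.CM4
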